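import Pool.Agent.Helper12.GM.Stmts

open scoped ENNReal UpperHalfPlane MatrixGroups Topology
open UpperHalfPlane Real Filter

namespace Pool.Agent.Helper12.GM

theorem OCC_card {Γ : Type} [Group Γ] (Q : Geo Γ) (t : ℝ) (ht : 0 ≤ t) :
    (((Q.fin t).toFinset.card : ℕ) : ℝ) ≤ Q.C * Real.exp t := by
  have h := Q.upper t ht
  rwa [Set.ncard_eq_toFinset_card _ (Q.fin t)] at h

theorem st_OCC : ST_OCC := by
  classical
  intro Γ _ Q C₁ C₂ h1 h2
  have hC := Q.one_le_C
  refine ⟨(C₁ + C₂ + 1) * Q.C ^ 2 * Real.exp (C₁ + C₂ + 1), by positivity, fun h t ht => ?_⟩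
  set S : Set Γ := {g | Q.L g ≤ t + C₁ ∧ Occ Q h C₂ g} with hS
  have hSf : S.Finite := (Q.fin (t + C₁)).subset fun g hg => hg.1
  set T : ℝ := t + C₁ + C₂ - Q.L h with hT
  have hLh := Q.nonneg h
  by_cases hT0 : T < 0
  · have : S = ∅ := by
      rw [Set.eq_empty_iff_forall_notMem]
      rintro g ⟨hg1, z, hz⟩
      have e1 := Q.nonneg z
      have e2 := Q.nonneg (h⁻¹ * z⁻¹ * g)
      linarith
    rw [this]
    simp
    positivity
  · have hT1 : 0 ≤ T := not_lt.1 hT0
    let U : Finset Γ := (Finset.range (⌊T⌋₊ + 1)).biUnion fun j =>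
      (((Q.fin ((j : ℝ) + 1)).toFinset ×ˢ (Q.fin (T - j)).toFinset).image
        fun p : Γ × Γ => p.1 * h * p.2)
    have hsub : hSf.toFinset ⊆ U := by
      intro g hg
      rw [Set.Finite.mem_toFinset] at hg
      obtain ⟨hg1, z, hz⟩ := hg
      have e1 := Q.nonneg z
      have e2 := Q.nonneg (h⁻¹ * z⁻¹ * g)
      have f1 := Nat.floor_le e1
      have f2 := Nat.lt_floor_add_one (Q.L z)
      simp only [U, Finset.mem_biUnion, Finset.mem_range, Finset.mem_image, Finset.mem_product,
        Set.Finite.mem_toFinset, Prod.exists]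
      refine ⟨⌊Q.L z⌋₊, Nat.lt_succ_of_le (Nat.floor_mono (by linarith)), z, h⁻¹ * z⁻¹ * g,
        ⟨f2.le, ?_⟩, by group⟩
      show Q.L (h⁻¹ * z⁻¹ * g) ≤ T - (⌊Q.L z⌋₊ : ℝ)
      linarith
    have hcard : ((U.card : ℕ) : ℝ) ≤ (T + 1) * (Q.C ^ 2 * Real.exp (T + 1)) := by
      calc ((U.card : ℕ) : ℝ) ≤ ((∑ j ∈ Finset.range (⌊T⌋₊ + 1),
            (((Q.fin ((j : ℝ) + 1)).toFinset ×ˢ (Q.fin (T - j)).toFinset).image
              fun p : Γ × Γ => p.1 * h * p.2).card : ℕ) : ℝ) := by
            have := Finset.card_biUnion_le (s := Finset.range (⌊T⌋₊ + 1)) (t := fun j =>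
              (((Q.fin ((j : ℝ) + 1)).toFinset ×ˢ (Q.fin (T - j)).toFinset).image
                fun p : Γ × Γ => p.1 * h * p.2))
            exact Nat.cast_le.2 this
        _ = ∑ j ∈ Finset.range (⌊T⌋₊ + 1),
            (((((Q.fin ((j : ℝ) + 1)).toFinset ×ˢ (Q.fin (T - j)).toFinset).image
              fun p : Γ × Γ => p.1 * h * p.2).card : ℕ) : ℝ) := by push_cast; rfl
        _ ≤ ∑ j ∈ Finset.range (⌊T⌋₊ + 1), Q.C ^ 2 * Real.exp (T + 1) := by
            apply Finset.sum_le_sum
            intro j hj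
            rw [Finset.mem_range] at hj
            have hj' : (j : ℝ) ≤ T := by
              have h3 : j ≤ ⌊T⌋₊ := Nat.lt_succ_iff.1 hj
              exact le_trans (by exact_mod_cast h3) (Nat.floor_le hT1)
            have g1 := OCC_card Q ((j : ℝ) + 1) (by positivity)
            have g2 := OCC_card Q (T - j) (by linarith)
            have g3 : ((((((Q.fin ((j : ℝ) + 1)).toFinset ×ˢ (Q.fin (T - j)).toFinset).image
              fun p : Γ × Γ => p.1 * h * p.2).card : ℕ)) : ℝ) ≤
              ((Q.fin ((j : ℝ) + 1)).toFinset.card : ℝ) * ((Q.fin (T - j)).toFinset.card : ℝ) := by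
              have := Finset.card_image_le (s := (Q.fin ((j : ℝ) + 1)).toFinset ×ˢ
                (Q.fin (T - j)).toFinset) (f := fun p : Γ × Γ => p.1 * h * p.2)
              rw [Finset.card_product] at this
              exact_mod_cast this
            refine le_trans g3 (le_trans (mul_le_mul g1 g2 (by positivity) (by positivity)) ?_)
            have e : Q.C * Real.exp ((j : ℝ) + 1) * (Q.C * Real.exp (T - j)) =
                Q.C ^ 2 * (Real.exp ((j : ℝ) + 1) * Real.exp (T - j)) := by ring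
            rw [e, ← Real.exp_add]
            apply le_of_eq
            congr 2
            ring
        _ = ((⌊T⌋₊ + 1 : ℕ) : ℝ) * (Q.C ^ 2 * Real.exp (T + 1)) := by
            rw [Finset.sum_const, Finset.card_range, nsmul_eq_mul]
        _ ≤ (T + 1) * (Q.C ^ 2 * Real.exp (T + 1)) := by
            apply mul_le_mul_of_nonneg_right _ (by positivity)
            push_cast
            linarith [Nat.floor_le hT1]
    rw [Set.ncard_eq_toFinset_card _ hSf]
    have hle : ((hSf.toFinset.card : ℕ) : ℝ) ≤ ((U.card : ℕ) : ℝ) := by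
      exact_mod_cast Finset.card_le_card hsub
    refine le_trans hle (le_trans hcard ?_)
    have e1 : Real.exp (T + 1) = Real.exp (C₁ + C₂ + 1) * Real.exp (t - Q.L h) := by
      rw [← Real.exp_add]
      congr 1
      rw [hT]
      ring
    have e2 : T + 1 ≤ (C₁ + C₂ + 1) * (t + 1) := by
      have : T + 1 ≤ t + C₁ + C₂ + 1 := by linarith
      nlinarith [mul_nonneg (add_nonneg h1 h2) ht]
    rw [e1]
    have e3 : (C₁ + C₂ + 1) * Q.C ^ 2 * Real.exp (C₁ + C₂ + 1) * (t + 1) * Real.exp (t - Q.L h) =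
        ((C₁ + C₂ + 1) * (t + 1)) * (Q.C ^ 2 * (Real.exp (C₁ + C₂ + 1) * Real.exp (t - Q.L h))) := by
      ring
    rw [e3]
    exact mul_le_mul_of_nonneg_right e2 (by positivity)

end Pool.Agent.Helper12.GM
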