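import Pool.Agent.Helper12.GM.LibF

open scoped ENNReal UpperHalfPlane MatrixGroups Topology
open UpperHalfPlane Real Filter

namespace Pool.Agent.Helper12.GM

variable {Γ : Type} [Group Γ]

theorem PAR_coe (A : SL(2, ℝ)) (z : ℍ) :
    ((A • z : ℍ) : ℂ) = ((A.1 0 0 : ℝ) * (z : ℂ) + (A.1 0 1 : ℝ)) /
      ((A.1 1 0 : ℝ) * (z : ℂ) + (A.1 1 1 : ℝ)) := by
  rw [coe_specialLinearGroup_apply]
  simp

theorem PAR_c (X : NFuchs Γ) (z : ℍ) :
    ‖((X.M X.c • z : ℍ) : ℂ)‖ = X.lam ^ 2 * ‖(z : ℂ)‖ := by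
  have h0 := X.one_lt
  have hl : 0 < X.lam := by linarith
  rw [PAR_coe, X.Mc]
  simp
  rw [abs_of_pos hl]
  ring

theorem PAR_pow (X : NFuchs Γ) (m : ℕ) (z : ℍ) :
    ‖((X.M (X.c ^ m) • z : ℍ) : ℂ)‖ = (X.lam ^ 2) ^ m * ‖(z : ℂ)‖ := by
  induction m generalizing z with
  | zero =>
    rw [pow_zero, X.act_one]
    simp
  | succ m ih =>
    rw [pow_succ, X.act, ih, PAR_c]
    ring

theorem PAR_inv (X : NFuchs Γ) (m : ℕ) (z : ℍ) :
    (X.lam ^ 2) ^ m * ‖((X.M (X.c ^ m)⁻¹ • z : ℍ) : ℂ)‖ = ‖(z : ℂ)‖ := by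
  rw [← PAR_pow, X.act_inv']

/-- entries of a product -/
theorem PAR_mul (X : Fuchs Γ) (g h : Γ) : ∃ s : ℝ, s ≠ 0 ∧ ∀ i j, (X.M (g * h)).1 i j =
    s * ((X.M g).1 i 0 * (X.M h).1 0 j + (X.M g).1 i 1 * (X.M h).1 1 j) := by
  rcases X.mul' g h with h1 | h1
  · refine ⟨1, one_ne_zero, fun i j => ?_⟩
    rw [h1, one_mul, Matrix.SpecialLinearGroup.coe_mul, Matrix.mul_apply, Fin.sum_univ_two]
  · refine ⟨-1, by norm_num, fun i j => ?_⟩
    rw [h1, Matrix.SpecialLinearGroup.coe_neg, Matrix.neg_apply, Matrix.SpecialLinearGroup.coe_mul,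
      Matrix.mul_apply, Fin.sum_univ_two]
    ring

theorem PAR_det (A : SL(2, ℝ)) : A.1 0 0 * A.1 1 1 - A.1 0 1 * A.1 1 0 = 1 := by
  have hdet := A.det_coe
  rwa [Matrix.det_fin_two] at hdet

/-- an element with nonzero off-diagonal entries -/
theorem PAR_b0 (hI : ST_IRR) (X : Fuchs Γ) : ∃ b, (X.M b).1 0 1 ≠ 0 ∧ (X.M b).1 1 0 ≠ 0 := by
  by_contra hcon
  push Not at hcon
  have h1 : ∃ g1, (X.M g1).1 1 0 ≠ 0 := by
    by_contra hc
    push Not at hc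
    apply hI X
    refine ⟨![1, 0], by intro h; simpa using congrFun h 0, fun g => ⟨(X.M g).1 0 0, ?_⟩⟩
    ext i
    fin_cases i
    · simp [Matrix.mulVec, dotProduct]
    · simp [Matrix.mulVec, dotProduct, hc g]
  have h2 : ∃ g2, (X.M g2).1 0 1 ≠ 0 := by
    by_contra hc
    push Not at hc
    apply hI X
    refine ⟨![0, 1], by intro h; simpa using congrFun h 1, fun g => ⟨(X.M g).1 1 1, ?_⟩⟩
    ext i
    fin_cases i
    · simp [Matrix.mulVec, dotProduct, hc g]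
    · simp [Matrix.mulVec, dotProduct]
  obtain ⟨g1, hg1⟩ := h1
  obtain ⟨g2, hg2⟩ := h2
  have a1 : (X.M g1).1 0 1 = 0 := by
    by_contra h
    exact hg1 (hcon g1 h)
  have a2 : (X.M g2).1 1 0 = 0 := hcon g2 hg2
  have d1 := PAR_det (X.M g1)
  have d2 := PAR_det (X.M g2)
  rw [a1, zero_mul, sub_zero] at d1
  rw [a2, mul_zero, sub_zero] at d2
  have p1 : (X.M g1).1 0 0 ≠ 0 := left_ne_zero_of_mul (by rw [d1]; exact one_ne_zero)
  have p2 : (X.M g2).1 0 0 ≠ 0 := left_ne_zero_of_mul (by rw [d2]; exact one_ne_zero)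
  obtain ⟨s, hs, hm⟩ := PAR_mul X g1 g2
  have e1 := hm 0 1
  have e2 := hm 1 0
  rw [a1, zero_mul, add_zero] at e1
  rw [a2, mul_zero, add_zero] at e2
  have f1 : (X.M (g1 * g2)).1 0 1 ≠ 0 := by
    rw [e1]
    exact mul_ne_zero hs (mul_ne_zero p1 hg2)
  have f2 : (X.M (g1 * g2)).1 1 0 ≠ 0 := by
    rw [e2]
    exact mul_ne_zero hs (mul_ne_zero hg1 p2)
  exact f2 (hcon _ f1)

/-- an element with nonzero entries -/
theorem PAR_b (hI : ST_IRR) (X : NFuchs Γ) : ∃ b, ∀ i j, (X.M b).1 i j ≠ 0 := by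
  obtain ⟨b, hq, hr⟩ := PAR_b0 hI X.toFuchs
  have hall : ∀ g, (X.M g).1 0 0 ≠ 0 → (X.M g).1 0 1 ≠ 0 → (X.M g).1 1 0 ≠ 0 →
      (X.M g).1 1 1 ≠ 0 → ∀ i j, (X.M g).1 i j ≠ 0 := by
    intro g h1 h2 h3 h4 i j
    fin_cases i <;> fin_cases j
    · exact h1
    · exact h2
    · exact h3
    · exact h4
  have hb1 : b ≠ 1 := by
    intro h
    rw [h] at hq
    rcases X.M_one with h1 | h1 <;> rw [h1] at hq <;> simp at hq
  have htr : (X.M b).1 0 0 ≠ 0 ∨ (X.M b).1 1 1 ≠ 0 := by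
    by_contra hc
    push Not at hc
    have := X.hyp b hb1
    rw [Matrix.trace_fin_two, hc.1, hc.2] at this
    norm_num at this
  have hdet := PAR_det (X.M b)
  have hl := X.one_lt
  -- products `b * b` and `b * (c * b)`
  obtain ⟨s, hs, hm⟩ := PAR_mul X.toFuchs b b
  obtain ⟨u, hu, hcb⟩ := PAR_mul X.toFuchs X.c b
  obtain ⟨v, hv, hbcb⟩ := PAR_mul X.toFuchs b (X.c * b)
  have hc00 : (X.M X.c).1 0 0 = X.lam := by rw [X.Mc]; simp
  have hc01 : (X.M X.c).1 0 1 = 0 := by rw [X.Mc]; simp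
  have hc10 : (X.M X.c).1 1 0 = 0 := by rw [X.Mc]; simp
  have hc11 : (X.M X.c).1 1 1 = X.lam⁻¹ := by rw [X.Mc]; simp
  have k0 : ∀ j, (X.M (X.c * b)).1 0 j = u * (X.lam * (X.M b).1 0 j) := by
    intro j
    rw [hcb 0 j, hc00, hc01]
    ring
  have k1 : ∀ j, (X.M (X.c * b)).1 1 j = u * (X.lam⁻¹ * (X.M b).1 1 j) := by
    intro j
    rw [hcb 1 j, hc10, hc11]
    ring
  have l0 : X.lam ≠ 0 := by linarith
  have li0 : X.lam⁻¹ ≠ 0 := inv_ne_zero l0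
  by_cases hp : (X.M b).1 0 0 = 0
  · have hsn : (X.M b).1 1 1 ≠ 0 := by
      rcases htr with h | h
      · exact absurd hp h
      · exact h
    have hqr : (X.M b).1 0 1 * (X.M b).1 1 0 = -1 := by
      rw [hp] at hdet
      linarith
    by_cases hj : (X.M b).1 1 1 ^ 2 = 1
    · refine ⟨b * (X.c * b), hall _ ?_ ?_ ?_ ?_⟩
      · rw [hbcb 0 0, k0, k1, hp]
        refine mul_ne_zero hv ?_
        have : (0 : ℝ) * (u * (X.lam * 0)) + (X.M b).1 0 1 * (u * (X.lam⁻¹ * (X.M b).1 1 0)) =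
            u * X.lam⁻¹ * ((X.M b).1 0 1 * (X.M b).1 1 0) := by ring
        rw [this, hqr]
        exact mul_ne_zero (mul_ne_zero hu li0) (by norm_num)
      · rw [hbcb 0 1, k0, k1, hp]
        refine mul_ne_zero hv ?_
        rw [zero_mul, zero_add]
        exact mul_ne_zero hq (mul_ne_zero hu (mul_ne_zero li0 hsn))
      · rw [hbcb 1 0, k0, k1, hp]
        refine mul_ne_zero hv ?_
        rw [mul_zero, mul_zero, mul_zero, zero_add]
        exact mul_ne_zero hsn (mul_ne_zero hu (mul_ne_zero li0 hr))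
      · rw [hbcb 1 1, k0, k1]
        refine mul_ne_zero hv ?_
        have : (X.M b).1 1 0 * (u * (X.lam * (X.M b).1 0 1)) +
            (X.M b).1 1 1 * (u * (X.lam⁻¹ * (X.M b).1 1 1)) =
            u * (X.lam * ((X.M b).1 0 1 * (X.M b).1 1 0) + X.lam⁻¹ * (X.M b).1 1 1 ^ 2) := by ring
        rw [this, hqr, hj]
        refine mul_ne_zero hu ?_
        have h1 : X.lam⁻¹ < 1 := inv_lt_one_of_one_lt₀ hl
        intro h2
        linarith
    · refine ⟨b * b, hall _ ?_ ?_ ?_ ?_⟩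
      · rw [hm 0 0, hp, mul_zero, zero_add, hqr]
        exact mul_ne_zero hs (by norm_num)
      · rw [hm 0 1, hp, zero_mul, zero_add]
        exact mul_ne_zero hs (mul_ne_zero hq hsn)
      · rw [hm 1 0, hp, mul_zero, zero_add]
        exact mul_ne_zero hs (mul_ne_zero hsn hr)
      · rw [hm 1 1]
        refine mul_ne_zero hs ?_
        intro h2
        apply hj
        nlinarith
  · by_cases hsn : (X.M b).1 1 1 = 0
    · have hqr : (X.M b).1 0 1 * (X.M b).1 1 0 = -1 := by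
        rw [hsn] at hdet
        linarith
      by_cases hj : (X.M b).1 0 0 ^ 2 = 1
      · refine ⟨b * (X.c * b), hall _ ?_ ?_ ?_ ?_⟩
        · rw [hbcb 0 0, k0, k1]
          refine mul_ne_zero hv ?_
          have : (X.M b).1 0 0 * (u * (X.lam * (X.M b).1 0 0)) +
              (X.M b).1 0 1 * (u * (X.lam⁻¹ * (X.M b).1 1 0)) =
              u * (X.lam * (X.M b).1 0 0 ^ 2 + X.lam⁻¹ * ((X.M b).1 0 1 * (X.M b).1 1 0)) := by ring
          rw [this, hqr, hj]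
          refine mul_ne_zero hu ?_
          have h1 : X.lam⁻¹ < 1 := inv_lt_one_of_one_lt₀ hl
          intro h2
          linarith
        · rw [hbcb 0 1, k0, k1, hsn]
          refine mul_ne_zero hv ?_
          rw [mul_zero, mul_zero, mul_zero, add_zero]
          exact mul_ne_zero hp (mul_ne_zero hu (mul_ne_zero l0 hq))
        · rw [hbcb 1 0, k0, k1, hsn]
          refine mul_ne_zero hv ?_
          rw [zero_mul, add_zero]
          exact mul_ne_zero hr (mul_ne_zero hu (mul_ne_zero l0 hp))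
        · rw [hbcb 1 1, k0, k1, hsn]
          refine mul_ne_zero hv ?_
          have : (X.M b).1 1 0 * (u * (X.lam * (X.M b).1 0 1)) + 0 * (u * (X.lam⁻¹ * 0)) =
              u * X.lam * ((X.M b).1 0 1 * (X.M b).1 1 0) := by ring
          rw [this, hqr]
          exact mul_ne_zero (mul_ne_zero hu l0) (by norm_num)
      · refine ⟨b * b, hall _ ?_ ?_ ?_ ?_⟩
        · rw [hm 0 0]
          refine mul_ne_zero hs ?_
          intro h2
          apply hj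
          nlinarith
        · rw [hm 0 1, hsn, mul_zero, add_zero]
          exact mul_ne_zero hs (mul_ne_zero hp hq)
        · rw [hm 1 0, hsn, zero_mul, add_zero]
          exact mul_ne_zero hs (mul_ne_zero hr hp)
        · rw [hm 1 1, hsn, mul_zero, add_zero, mul_comm ((X.M b).1 1 0), hqr]
          exact mul_ne_zero hs (by norm_num)
    · exact ⟨b, hall _ hp hq hr hsn⟩

/-- `‖p w + q‖` for small `w` -/
theorem PAR_small (p q : ℝ) (w : ℂ) (h : 2 * |p| * ‖w‖ ≤ |q|) :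
    |q| / 2 ≤ ‖(p : ℂ) * w + (q : ℂ)‖ ∧ ‖(p : ℂ) * w + (q : ℂ)‖ ≤ 3 * |q| / 2 := by
  have e1 : ‖(p : ℂ) * w‖ = |p| * ‖w‖ := by rw [norm_mul, Complex.norm_real, Real.norm_eq_abs]
  have e2 : ‖(q : ℂ)‖ = |q| := by rw [Complex.norm_real, Real.norm_eq_abs]
  have h1 := norm_add_le ((p : ℂ) * w) (q : ℂ)
  have h2 := norm_sub_norm_le (q : ℂ) (-((p : ℂ) * w))
  rw [sub_neg_eq_add, norm_neg, add_comm (q : ℂ)] at h2
  rw [e1, e2] at h1 h2
  constructor <;> linarith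

/-- `‖p w + q‖` for large `w` -/
theorem PAR_large (p q : ℝ) (w : ℂ) (h : 2 * |q| ≤ |p| * ‖w‖) :
    |p| * ‖w‖ / 2 ≤ ‖(p : ℂ) * w + (q : ℂ)‖ ∧ ‖(p : ℂ) * w + (q : ℂ)‖ ≤ 3 * (|p| * ‖w‖) / 2 := by
  have e1 : ‖(p : ℂ) * w‖ = |p| * ‖w‖ := by rw [norm_mul, Complex.norm_real, Real.norm_eq_abs]
  have e2 : ‖(q : ℂ)‖ = |q| := by rw [Complex.norm_real, Real.norm_eq_abs]
  have h1 := norm_add_le ((p : ℂ) * w) (q : ℂ)
  have h2 := norm_sub_norm_le ((p : ℂ) * w) (-(q : ℂ))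
  rw [sub_neg_eq_add, norm_neg] at h2
  rw [e1, e2] at h1 h2
  constructor <;> linarith

theorem PAR_exists (B L : ℝ) (hL : 1 < L) : ∃ m : ℕ, B < L ^ m :=
  pow_unbounded_of_one_lt B hL

/-- the main estimate -/
theorem PAR_est (A : SL(2, ℝ)) (hA : ∀ i j, A.1 i j ≠ 0) : ∃ B : ℝ, ∀ D : ℝ, B < D →
    ∀ w : ℍ, (‖(w : ℂ)‖ * D ≤ 1 ∨ D ≤ ‖(w : ℂ)‖) →
      1 ≤ ‖((A • w : ℍ) : ℂ)‖ * D ∧ ‖((A • w : ℍ) : ℂ)‖ < D := by
  set p := A.1 0 0 with hp
  set q := A.1 0 1 with hq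
  set r := A.1 1 0 with hr
  set s := A.1 1 1 with hs
  have p0 : 0 < |p| := abs_pos.2 (hA 0 0)
  have q0 : 0 < |q| := abs_pos.2 (hA 0 1)
  have r0 : 0 < |r| := abs_pos.2 (hA 1 0)
  have s0 : 0 < |s| := abs_pos.2 (hA 1 1)
  refine ⟨3 * (|p| / |q| + |q| / |p| + |r| / |s| + |s| / |r| + |q| / |s| + |s| / |q| +
    |p| / |r| + |r| / |p|), fun D hD w hw => ?_⟩
  have t1 : 0 < |p| / |q| := by positivity
  have t2 : 0 < |q| / |p| := by positivity
  have t3 : 0 < |r| / |s| := by positivity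
  have t4 : 0 < |s| / |r| := by positivity
  have t5 : 0 < |q| / |s| := by positivity
  have t6 : 0 < |s| / |q| := by positivity
  have t7 : 0 < |p| / |r| := by positivity
  have t8 : 0 < |r| / |p| := by positivity
  have hD0 : 0 < D := by linarith
  have u1 : 3 * |p| < D * |q| := by
    have : 3 * (|p| / |q|) < D := by linarith
    rwa [← mul_div_assoc, div_lt_iff₀ q0] at this
  have u2 : 3 * |q| < D * |p| := by
    have : 3 * (|q| / |p|) < D := by linarith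
    rwa [← mul_div_assoc, div_lt_iff₀ p0] at this
  have u3 : 3 * |r| < D * |s| := by
    have : 3 * (|r| / |s|) < D := by linarith
    rwa [← mul_div_assoc, div_lt_iff₀ s0] at this
  have u4 : 3 * |s| < D * |r| := by
    have : 3 * (|s| / |r|) < D := by linarith
    rwa [← mul_div_assoc, div_lt_iff₀ r0] at this
  have u5 : 3 * |q| < D * |s| := by
    have : 3 * (|q| / |s|) < D := by linarith
    rwa [← mul_div_assoc, div_lt_iff₀ s0] at this
  have u6 : 3 * |s| < D * |q| := by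
    have : 3 * (|s| / |q|) < D := by linarith
    rwa [← mul_div_assoc, div_lt_iff₀ q0] at this
  have u7 : 3 * |p| < D * |r| := by
    have : 3 * (|p| / |r|) < D := by linarith
    rwa [← mul_div_assoc, div_lt_iff₀ r0] at this
  have u8 : 3 * |r| < D * |p| := by
    have : 3 * (|r| / |p|) < D := by linarith
    rwa [← mul_div_assoc, div_lt_iff₀ p0] at this
  have hwn : 0 ≤ ‖(w : ℂ)‖ := norm_nonneg _
  rw [PAR_coe, norm_div]
  rcases hw with hw | hw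
  · have g1 : ∀ a b : ℝ, 0 ≤ a → 3 * a < D * b → 2 * a * ‖(w : ℂ)‖ ≤ b := by
      intro a b ha hab
      have h1 : 2 * a * ‖(w : ℂ)‖ ≤ D * b * ‖(w : ℂ)‖ := by nlinarith
      have hb : 0 ≤ b := by
        by_contra hb
        have := mul_neg_of_pos_of_neg hD0 (not_le.1 hb)
        linarith
      have h2 : D * b * ‖(w : ℂ)‖ ≤ b := by nlinarith
      linarith
    obtain ⟨a1, a2⟩ := PAR_small p q w (g1 _ _ p0.le u1)
    obtain ⟨b1, b2⟩ := PAR_small r s w (g1 _ _ r0.le u3)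
    have hpos : 0 < ‖(r : ℂ) * (w : ℂ) + (s : ℂ)‖ := by linarith
    constructor
    · rw [div_mul_eq_mul_div, le_div_iff₀ hpos, one_mul]
      nlinarith
    · rw [div_lt_iff₀ hpos]
      nlinarith
  · have hw0 : 0 < ‖(w : ℂ)‖ := lt_of_lt_of_le hD0 hw
    have g1 : ∀ a b : ℝ, 0 ≤ a → 3 * a < D * b → 2 * a ≤ b * ‖(w : ℂ)‖ := by
      intro a b ha hab
      have hb : 0 ≤ b := by
        by_contra hb
        have := mul_neg_of_pos_of_neg hD0 (not_le.1 hb)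
        linarith
      nlinarith
    obtain ⟨a1, a2⟩ := PAR_large p q w (g1 _ _ q0.le u2)
    obtain ⟨b1, b2⟩ := PAR_large r s w (g1 _ _ s0.le u4)
    have hpos : 0 < ‖(r : ℂ) * (w : ℂ) + (s : ℂ)‖ := by
      have : 0 < |r| * ‖(w : ℂ)‖ := by positivity
      linarith
    constructor
    · rw [div_mul_eq_mul_div, le_div_iff₀ hpos, one_mul]
      have h1 : 3 * |r| * ‖(w : ℂ)‖ ≤ D * |p| * ‖(w : ℂ)‖ :=
        mul_le_mul_of_nonneg_right u8.le hwn
      nlinarith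
    · rw [div_lt_iff₀ hpos]
      have h1 : 3 * |p| * ‖(w : ℂ)‖ < D * |r| * ‖(w : ℂ)‖ :=
        mul_lt_mul_of_pos_right u7 hw0
      nlinarith

theorem st_PAR (hI : ST_IRR) : ST_PAR := by
  intro Γ _ X
  obtain ⟨b, hb⟩ := PAR_b hI X
  obtain ⟨B, hB⟩ := PAR_est (X.M b) hb
  have hl := X.one_lt
  have hL : 1 < X.lam ^ 2 := by nlinarith
  obtain ⟨m, hm⟩ := PAR_exists (max B 1) (X.lam ^ 2) hL
  set D : ℝ := (X.lam ^ 2) ^ m with hD
  have hD1 : 1 < D := lt_of_le_of_lt (le_max_right _ _) hm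
  have hDB : B < D := lt_of_le_of_lt (le_max_left _ _) hm
  have hD0 : 0 < D := by linarith
  refine ⟨{x | 1 ≤ ‖((X.M x⁻¹ • (I : ℍ) : ℍ) : ℂ)‖ ∧ ‖((X.M x⁻¹ • (I : ℍ) : ℍ) : ℂ)‖ < D ^ 2},
    X.c ^ m * b⁻¹ * (X.c ^ m)⁻¹, X.c ^ m * X.c ^ m, fun x => ?_, fun x hx => ?_⟩
  · by_cases hx : 1 ≤ ‖((X.M x⁻¹ • (I : ℍ) : ℍ) : ℂ)‖ ∧ ‖((X.M x⁻¹ • (I : ℍ) : ℍ) : ℂ)‖ < D ^ 2
    · exact Or.inl hx
    · right
      show 1 ≤ ‖((X.M (x * (X.c ^ m * b⁻¹ * (X.c ^ m)⁻¹))⁻¹ • (I : ℍ) : ℍ) : ℂ)‖ ∧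
        ‖((X.M (x * (X.c ^ m * b⁻¹ * (X.c ^ m)⁻¹))⁻¹ • (I : ℍ) : ℍ) : ℂ)‖ < D ^ 2
      have e : (x * (X.c ^ m * b⁻¹ * (X.c ^ m)⁻¹))⁻¹ =
          X.c ^ m * (b * ((X.c ^ m)⁻¹ * x⁻¹)) := by group
      rw [e, X.act, X.act, X.act]
      set z : ℍ := X.M x⁻¹ • (I : ℍ) with hz
      have h1 := PAR_inv X m z
      set w : ℍ := X.M (X.c ^ m)⁻¹ • z with hw
      rw [← hD] at h1
      have hcond : ‖(w : ℂ)‖ * D ≤ 1 ∨ D ≤ ‖(w : ℂ)‖ := by
        by_cases hz1 : 1 ≤ ‖(z : ℂ)‖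
        · right
          have hz2 : D ^ 2 ≤ ‖(z : ℂ)‖ := by
            by_contra hc
            exact hx ⟨hz1, not_le.1 hc⟩
          rw [← h1] at hz2
          have : D * D ≤ D * ‖(w : ℂ)‖ := by rw [← sq]; exact hz2
          exact le_of_mul_le_mul_left this hD0
        · left
          rw [mul_comm, h1]
          exact (not_le.1 hz1).le
      obtain ⟨g1, g2⟩ := hB D hDB w hcond
      rw [PAR_pow, ← hD]
      constructor
      · rw [mul_comm]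
        exact g1
      · rw [sq]
        exact mul_lt_mul_of_pos_left g2 hD0
  · obtain ⟨hx1, hx2⟩ := hx
    have key : ∀ z : ℍ, ‖(z : ℂ)‖ < D ^ 2 →
        ‖((X.M (X.c ^ m * X.c ^ m)⁻¹ • z : ℍ) : ℂ)‖ < 1 := by
      intro z hz
      rw [mul_inv_rev, X.act]
      have h1 := PAR_inv X m z
      have h2 := PAR_inv X m (X.M (X.c ^ m)⁻¹ • z)
      rw [← hD] at h1 h2
      rw [← h1, ← h2] at hz
      have : D ^ 2 * ‖((X.M (X.c ^ m)⁻¹ • (X.M (X.c ^ m)⁻¹ • z) : ℍ) : ℂ)‖ < D ^ 2 * 1 := by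
        rw [mul_one]
        calc _ = D * (D * ‖((X.M (X.c ^ m)⁻¹ • (X.M (X.c ^ m)⁻¹ • z) : ℍ) : ℂ)‖) := by ring
          _ < D ^ 2 := hz
      exact lt_of_mul_lt_mul_left this (by positivity)
    have k1 : ‖((X.M (x * (X.c ^ m * X.c ^ m))⁻¹ • (I : ℍ) : ℍ) : ℂ)‖ < 1 := by
      rw [mul_inv_rev, X.act]
      exact key _ hx2
    have k2 : ‖((X.M (x * (X.c ^ m * X.c ^ m) * (X.c ^ m * X.c ^ m))⁻¹ • (I : ℍ) : ℍ) : ℂ)‖ <
        1 := by
      rw [mul_inv_rev _ (X.c ^ m * X.c ^ m), X.act]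
      apply key
      refine lt_trans k1 ?_
      nlinarith
    exact ⟨fun h => absurd h.1 (not_le.2 k1), fun h => absurd h.1 (not_le.2 k2)⟩

end Pool.Agent.Helper12.GM
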